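import Pool.Agent.H81.Tube3

set_option autoImplicit false

open MeasureTheory Set Matrix Pool.Agent.H81.Tube
open scoped ContDiff

namespace Pool.Agent.Results.MP_b669e1_gt.TubeBody

abbrev E := EuclideanSpace ℝ (Fin 5)

noncomputable def ff (x : E) : ℝ :=
  (x 0 ^ 2 + x 1 ^ 2 + x 2 ^ 2 + x 3 ^ 2 + x 4 ^ 2 + 3 / 4) ^ 2 - 4 * (x 0 ^ 2 + x 1 ^ 2 + x 2 ^ 2)

lemma ff_iff (a b : ℝ) (ha : 0 ≤ a) (hb : 0 ≤ b) :
    (a + b + 3 / 4) ^ 2 - 4 * a ≤ 0 ↔ (Real.sqrt a - 1) ^ 2 + b ≤ (1 / 2) ^ 2 := by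
  have h2 := Real.sq_sqrt ha
  have h3 := Real.sqrt_nonneg a
  generalize Real.sqrt a = u at h2 h3
  subst h2
  constructor
  · intro h
    have := (abs_le_of_sq_le_sq' (a := u ^ 2 + b + 3 / 4) (b := 2 * u) (by linarith) (by linarith)).2
    linarith
  · intro h; nlinarith

lemma ff_smooth : ContDiff ℝ ∞ ff := by unfold ff; fun_prop

lemma ff_reg (x : E) (hx : ff x = 0) : fderiv ℝ ff x ≠ 0 := by
  intro h
  have key : ∀ v : E, HasDerivAt (fun s : ℝ => ff (x + s • v)) 0 0 := by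
    intro v
    have h1 : HasFDerivAt ff (fderiv ℝ ff x) (x + (0 : ℝ) • v) := by
      simpa using (ff_smooth.differentiable (by simp) x).hasFDerivAt
    have h2 : HasDerivAt (fun s : ℝ => x + s • v) v 0 := by
      simpa using ((hasDerivAt_id (0 : ℝ)).smul_const v).const_add x
    have h3 := h1.comp_hasDerivAt (0 : ℝ) h2
    rw [h] at h3
    exact h3
  have c : ∀ (v : E) (i : Fin 5), HasDerivAt (fun s : ℝ => (x + s • v) i ^ 2) (2 * x i * v i) 0 := by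
    intro v i
    have := (((hasDerivAt_id (0 : ℝ)).mul_const (v i)).const_add (x i)).fun_pow 2
    simpa using this
  have d : ∀ v : E, 2 * (x 0 ^ 2 + x 1 ^ 2 + x 2 ^ 2 + x 3 ^ 2 + x 4 ^ 2 + 3 / 4) *
      (2 * x 0 * v 0 + 2 * x 1 * v 1 + 2 * x 2 * v 2 + 2 * x 3 * v 3 + 2 * x 4 * v 4) -
      4 * (2 * x 0 * v 0 + 2 * x 1 * v 1 + 2 * x 2 * v 2) = 0 := by
    intro v
    have := (((((((c v 0).fun_add (c v 1)).fun_add (c v 2)).fun_add (c v 3)).fun_add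
      (c v 4)).add_const (3 / 4)).fun_pow 2).fun_sub
      ((((c v 0).fun_add (c v 1)).fun_add (c v 2)).const_mul 4)
    have := this.unique (key v)
    simpa using this
  have d1 := d !₂[x 0, x 1, x 2, 0, 0]
  have d2 := d !₂[0, 0, 0, x 3, x 4]
  simp at d1 d2
  unfold ff at hx
  have p : 0 < x 0 ^ 2 + x 1 ^ 2 + x 2 ^ 2 + x 3 ^ 2 + x 4 ^ 2 + 3 / 4 := by positivity
  have e2 : x 3 ^ 2 + x 4 ^ 2 = 0 := by
    rcases d2 with h | h
    · exact absurd h p.ne'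
    · linarith
  have e1 : (x 0 ^ 2 + x 1 ^ 2 + x 2 ^ 2) * (x 0 ^ 2 + x 1 ^ 2 + x 2 ^ 2 - 5 / 4) = 0 := by
    linear_combination d1 / 4 - (x 0 ^ 2 + x 1 ^ 2 + x 2 ^ 2) * e2
  rw [add_assoc (x 0 ^ 2 + x 1 ^ 2 + x 2 ^ 2), e2] at hx
  rcases mul_eq_zero.1 e1 with h | h
  · rw [h] at hx; norm_num at hx
  · rw [sub_eq_zero.1 h] at hx; norm_num at hx

lemma front : frontier {x | ff x ≤ 0} = {x | ff x = 0} := by
  refine (frontier_le_subset_eq ff_smooth.continuous continuous_const).antisymm fun x hx => ?_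
  rw [(isClosed_le ff_smooth.continuous continuous_const).frontier_eq]
  refine ⟨le_of_eq hx, fun h => ff_reg x hx (IsLocalMax.fderiv_eq_zero ?_)⟩
  filter_upwards [mem_interior_iff_mem_nhds.1 h] with y hy
  rw [show ff x = 0 from hx]; exact hy

lemma conn : IsConnected {x | ff x = 0} := by
  have hs : IsConnected (Metric.sphere (0 : EuclideanSpace ℝ (Fin 3)) 1) :=
    isConnected_sphere (by rw [← Module.finrank_eq_rank]; simp) _ zero_le_one
  have hm : ∀ u : EuclideanSpace ℝ (Fin 3), u ∈ Metric.sphere (0 : EuclideanSpace ℝ (Fin 3)) 1 ↔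
      u 0 ^ 2 + u 1 ^ 2 + u 2 ^ 2 = 1 := fun u => by
    simp [EuclideanSpace.norm_eq, Fin.sum_univ_three]
  have := (hs.prod hs).image (fun p => (!₂[(1 + p.2 0 / 2) * p.1 0, (1 + p.2 0 / 2) * p.1 1,
    (1 + p.2 0 / 2) * p.1 2, p.2 1 / 2, p.2 2 / 2] : E)) (by fun_prop)
  convert this using 1
  ext x
  constructor
  · intro hx
    have hx' : ff x = 0 := hx
    unfold ff at hx'
    have ha : 0 ≤ x 0 ^ 2 + x 1 ^ 2 + x 2 ^ 2 := by positivity
    have h2 := Real.sq_sqrt ha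
    have h3 := Real.sqrt_nonneg (x 0 ^ 2 + x 1 ^ 2 + x 2 ^ 2)
    generalize Real.sqrt (x 0 ^ 2 + x 1 ^ 2 + x 2 ^ 2) = r at h2 h3
    have p : 0 < x 0 ^ 2 + x 1 ^ 2 + x 2 ^ 2 + x 3 ^ 2 + x 4 ^ 2 + 3 / 4 := by positivity
    have h4 : x 0 ^ 2 + x 1 ^ 2 + x 2 ^ 2 + x 3 ^ 2 + x 4 ^ 2 + 3 / 4 = 2 * r :=
      (sq_eq_sq₀ p.le (by linarith)).1 (by linarith)
    have h5 : r ≠ 0 := by intro h; rw [h] at h4; linarith
    refine ⟨(!₂[x 0 / r, x 1 / r, x 2 / r], !₂[2 * (r - 1), 2 * x 3, 2 * x 4]), ⟨?_, ?_⟩, ?_⟩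
    · rw [hm]; simp; field_simp; linarith
    · rw [hm]; simp; nlinarith
    · ext i; fin_cases i <;> simp <;> field_simp
  · rintro ⟨⟨u, w⟩, ⟨hu, hw⟩, rfl⟩
    rw [hm] at hu hw
    show ff _ = 0
    unfold ff
    simp only at hu hw
    simp
    have e1 : ((1 + w 0 / 2) * u 0) ^ 2 + ((1 + w 0 / 2) * u 1) ^ 2 + ((1 + w 0 / 2) * u 2) ^ 2 =
        (1 + w 0 / 2) ^ 2 := by linear_combination (1 + w 0 / 2) ^ 2 * hu
    have e2 : (1 + w 0 / 2) ^ 2 + (w 1 / 2) ^ 2 + (w 2 / 2) ^ 2 + 3 / 4 = 2 * (1 + w 0 / 2) := by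
      linear_combination hw / 4
    rw [e1, e2]; ring

def sp (x : E) : (Fin 3 → ℝ) × (Fin 2 → ℝ) := (![x 0, x 1, x 2], ![x 3, x 4])

lemma sp_mp : MeasurePreserving sp := by
  have h := ((volume_measurePreserving_sumPiEquivProdPi (fun _ : Fin 3 ⊕ Fin 2 => ℝ)).comp
    (volume_measurePreserving_piCongrLeft (fun _ : Fin 5 => ℝ) finSumFinEquiv).symm).comp
    (PiLp.volume_preserving_ofLp (Fin 5))
  refine h.congr ?_ (Filter.Eventually.of_forall fun x => ?_)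
  · unfold sp; fun_prop
  · ext i <;> fin_cases i <;> rfl

lemma vol_eq (ξ : E) (t : ℝ) : volume ({x | ff x ≤ 0} ∩ {x | inner ℝ x ξ ≤ t}) =
    volume (tube 3 2 (1 / 2) ![ξ 0, ξ 1, ξ 2] ![ξ 3, ξ 4] t) := by
  rw [← sp_mp.measure_preimage (tube_compact _ _ _ _ _ _).measurableSet.nullMeasurableSet]
  congr 1; ext x
  simp only [mem_inter_iff, mem_setOf_eq, mem_preimage, tube, sp, Fin.sum_univ_three,
    Fin.sum_univ_two, ff, PiLp.inner_apply, Fin.sum_univ_five]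
  simp only [Matrix.cons_val, ← ff_iff _ _ (by positivity : 0 ≤ x 0 ^ 2 + x 1 ^ 2 + x 2 ^ 2)
    (by positivity : 0 ≤ x 3 ^ 2 + x 4 ^ 2)]
  simp [add_assoc]

theorem result : ∃ (n : ℕ) (K : Set (EuclideanSpace ℝ (Fin n))), Odd n ∧ IsCompact K ∧
    (interior K).Nonempty ∧
    (∃ f : EuclideanSpace ℝ (Fin n) → ℝ, ContDiff ℝ ∞ f ∧ K = {x | f x ≤ 0} ∧
      frontier K = {x | f x = 0} ∧ ∀ x, f x = 0 → fderiv ℝ f x ≠ 0) ∧
    IsConnected (frontier K) ∧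
    (¬ ∃ A : EuclideanSpace ℝ (Fin n) ≃ᵃ[ℝ] EuclideanSpace ℝ (Fin n),
      K = A '' Metric.closedBall 0 1) ∧
    ∃ Φ : MvPolynomial (Fin n ⊕ Fin 2) ℝ,
      (∃ (ξ : EuclideanSpace ℝ (Fin n)) (t w : ℝ), ‖ξ‖ = 1 ∧
        MvPolynomial.eval (Sum.elim ξ.ofLp ![t, w]) Φ ≠ 0) ∧
      ∀ (ξ : EuclideanSpace ℝ (Fin n)) (t : ℝ),
        MvPolynomial.eval (Sum.elim ξ.ofLp
          ![t, (volume (K ∩ {x | inner ℝ x ξ ≤ t})).toReal]) Φ = 0 ∧
        MvPolynomial.eval (Sum.elim ξ.ofLp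
          ![t, (volume (K ∩ {x | inner ℝ x ξ ≥ t})).toReal]) Φ = 0 := by
  refine ⟨5, {x | ff x ≤ 0}, by decide, ?_, ?_, ⟨ff, ff_smooth, rfl, front, ff_reg⟩,
    front ▸ conn, ?_, ?_⟩
  · refine Metric.isCompact_of_isClosed_isBounded (isClosed_le ff_smooth.continuous continuous_const)
      ((Metric.isBounded_closedBall (x := (0 : E)) (r := 2)).subset fun x hx => ?_)
    have hx' : ff x ≤ 0 := hx
    unfold ff at hx'
    rw [mem_closedBall_zero_iff, EuclideanSpace.norm_eq, Real.sqrt_le_left (by norm_num)]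
    simp only [Fin.sum_univ_five, Real.norm_eq_abs, sq_abs]
    nlinarith [sq_nonneg (x 3), sq_nonneg (x 4), sq_nonneg (x 0), sq_nonneg (x 1), sq_nonneg (x 2)]
  · refine ⟨!₂[1, 0, 0, 0, 0], 
      interior_mono (s := {x | ff x < 0}) (fun x hx => show ff x ≤ 0 from le_of_lt hx) ?_⟩
    rw [(isOpen_lt ff_smooth.continuous continuous_const).interior_eq]
    show ff _ < 0
    simp [ff]; norm_num
  · rintro ⟨A, hA⟩
    have hc : Convex ℝ {x | ff x ≤ 0} := by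
      rw [hA]; exact (convex_closedBall (0 : E) 1).affine_image A.toAffineMap
    have := hc (x := !₂[1, 0, 0, 0, 0]) (by show ff _ ≤ 0; simp [ff]; norm_num)
      (y := !₂[-1, 0, 0, 0, 0]) (by show ff _ ≤ 0; simp [ff]; norm_num)
      (a := 1 / 2) (b := 1 / 2) (by norm_num) (by norm_num) (by norm_num)
    have h : ff _ ≤ 0 := this
    simp [ff] at h
  · obtain ⟨F, F0, hF⟩ := tube_main 1 1 (ε := 1 / 2) (by norm_num) (by norm_num)
    let S : ℝ → MvPolynomial (Fin 5 ⊕ Fin 2) ℝ := fun c => MvPolynomial.aeval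
      (Sum.elim (Sum.elim (fun i : Fin 3 => MvPolynomial.C c * MvPolynomial.X (.inl (i.castAdd 2)))
        fun i : Fin 2 => MvPolynomial.C c * MvPolynomial.X (.inl (i.natAdd 3)))
        ![MvPolynomial.C c * MvPolynomial.X (.inr 0), MvPolynomial.X (.inr 1)]) F
    have hS : ∀ (c : ℝ) (ξ : Fin 5 → ℝ) (t w : ℝ), MvPolynomial.eval (Sum.elim ξ ![t, w]) (S c) =
        MvPolynomial.eval (Sum.elim (Sum.elim ![c * ξ 0, c * ξ 1, c * ξ 2] ![c * ξ 3, c * ξ 4])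
          ![c * t, w]) F := by
      intro c ξ t w
      simp only [S]
      rw [MvPolynomial.aeval_eq_bind₁, MvPolynomial.eval, MvPolynomial.eval₂Hom_bind₁]
      congr 2
      ext ((i | i) | i) <;> fin_cases i <;> simp <;> rfl
    have S0 : ∀ c : ℝ, c ≠ 0 → S c ≠ 0 := by
      intro c hc h
      refine F0 (MvPolynomial.funext fun x => ?_)
      have := hS c ![x (.inl (.inl 0)) / c, x (.inl (.inl 1)) / c, x (.inl (.inl 2)) / c,
        x (.inl (.inr 0)) / c, x (.inl (.inr 1)) / c] (x (.inr 0) / c) (x (.inr 1))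
      rw [h] at this
      simp only [map_zero] at this ⊢
      rw [this]
      congr 2
      ext ((i | i) | i) <;> fin_cases i <;> simp [mul_div_cancel₀, hc] <;> rfl
    have h1 : MvPolynomial.X (.inl 0) * (S 1 * S (-1)) ≠ 0 :=
      mul_ne_zero (MvPolynomial.X_ne_zero _) (mul_ne_zero (S0 _ one_ne_zero) (S0 _ (by norm_num)))
    obtain ⟨x, hx⟩ : ∃ x, MvPolynomial.eval x (MvPolynomial.X (.inl 0) * (S 1 * S (-1))) ≠ 0 := by
      by_contra h
      push Not at h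
      exact h1 (MvPolynomial.funext fun x => by simpa using h x)
    have ex : x = Sum.elim (fun i => x (.inl i)) ![x (.inr 0), x (.inr 1)] := by
      ext (i | i)
      · rfl
      · fin_cases i <;> rfl
    set ξ : E := WithLp.toLp 2 fun i => x (.inl i) with hξ
    rw [map_mul, map_mul, ex, hS, hS] at hx
    have ξ0 : ξ ≠ 0 := fun h => hx (mul_eq_zero_of_left (by simpa using congrArg (· 0) h) _)
    have hl : 0 < ‖ξ‖ := norm_pos_iff.2 ξ0
    have hv : ∀ c : ℝ, 0 < c → ∀ (η : E) (t : ℝ), MvPolynomial.eval (Sum.elim (Sum.elim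
        ![c * η 0, c * η 1, c * η 2] ![c * η 3, c * η 4])
        ![c * t, (volume ({x | ff x ≤ 0} ∩ {x | inner ℝ x η ≤ t})).toReal]) F = 0 := by
      intro c hc η t
      have := hF ![c * η 0, c * η 1, c * η 2] ![c * η 3, c * η 4] (c * t)
      have e := vol_eq (c • η) (c * t)
      simp only [inner_smul_right, mul_le_mul_iff_right₀ hc] at e
      rw [e]; exact this
    refine ⟨S ‖ξ‖ * S (-‖ξ‖), ⟨‖ξ‖⁻¹ • ξ, x (.inr 0) / ‖ξ‖, x (.inr 1), ?_, ?_⟩, fun η t => ?_⟩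
    · rw [norm_smul]; simp [hl.ne']
    · rw [map_mul, hS, hS]
      have e1 : ∀ i, ‖ξ‖ * (‖ξ‖⁻¹ • ξ).ofLp i = x (.inl i) := fun i => by
        rw [PiLp.smul_apply, smul_eq_mul, mul_inv_cancel_left₀ hl.ne']
      have e2 : ‖ξ‖ * (x (.inr 0) / ‖ξ‖) = x (.inr 0) := by field_simp
      simpa only [neg_mul, one_mul, e1, e2] using right_ne_zero_of_mul hx
    · rw [map_mul, map_mul, hS, hS, hS, hS]
      refine ⟨mul_eq_zero_of_left (hv _ hl η t) _, mul_eq_zero_of_right _ ?_⟩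
      have := hv _ hl (-η) (-t)
      simpa [inner_neg_right] using this

end Pool.Agent.Results.MP_b669e1_gt.TubeBody
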